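import Mathlib

/-!
MP_275f89_an (causality of triangle functions): there is a triangle function for which the
implication in the definition of causality fails for every `a > 0`.
-/

set_option autoImplicit false

open Set Filter Topology

namespace Pool.Agent.Results.MP_275f89_an.NonCausal

/-- Distance distribution functions (the set `Δ⁺`): nondecreasing functions `F` on `[-∞, ∞]` with
values in `[0, 1]`, left-continuous on `(-∞, ∞)`, with `F 0 = 0` and `F ∞ = 1`. -/
@[ext] structure Dist where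
  /-- the function -/
  val : EReal → ℝ
  mono : Monotone val
  mem : ∀ x, val x ∈ Icc (0 : ℝ) 1
  left : ∀ x : ℝ, ContinuousWithinAt val (Iio (x : EReal)) x
  zero : val 0 = 0
  top : val ⊤ = 1

/-- The pointwise order. -/
def Dist.Le (F G : Dist) : Prop := ∀ x, F.val x ≤ G.val x

/-- `E` is the element `ε₀`: `E x = 0` for `x ≤ 0` and `E x = 1` for `x > 0`. -/
def IsEps0 (E : Dist) : Prop := ∀ x, (x ≤ 0 → E.val x = 0) ∧ (0 < x → E.val x = 1)

/-- Triangle functions: commutative, associative, nondecreasing in each argument, with identity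
`ε₀`. -/
structure TriangleFunction where
  /-- the operation -/
  op : Dist → Dist → Dist
  comm : ∀ F G, op F G = op G F
  assoc : ∀ F G H, op (op F G) H = op F (op G H)
  mono : ∀ F F' G G', F.Le F' → G.Le G' → (op F G).Le (op F' G')
  id : ∀ E, IsEps0 E → ∀ F, op F E = F

/-- The implication of the definition of causality, for the number `a`. -/
def CausalAt (τ : TriangleFunction) (a : ℝ) : Prop :=
  ∀ F₁ F₂ G₁ G₂ : Dist, (∀ x : EReal, x ≤ a → F₁.val x ≤ F₂.val x) →
    (∀ x : EReal, x ≤ a → G₁.val x ≤ G₂.val x) →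
      ∀ x : EReal, x ≤ a → (τ.op F₁ G₁).val x ≤ (τ.op F₂ G₂).val x

/-- The triangle function `τ` is causal. -/
def Causal (τ : TriangleFunction) : Prop := ∀ a : ℝ, 0 < a → CausalAt τ a

/-- An element of `Δ⁺` from a function on the real line. -/
noncomputable def ofReal (f : ℝ → ℝ) (h1 : Monotone f) (h2 : ∀ x, f x ∈ Icc (0 : ℝ) 1)
    (h3 : ∀ x, ContinuousWithinAt f (Iio x) x) (h4 : f 0 = 0) : Dist where
  val x := if x = ⊤ then 1 else f x.toReal
  mono := by
    intro x y hxy
    show (if x = ⊤ then (1 : ℝ) else f x.toReal) ≤ if y = ⊤ then 1 else f y.toReal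
    by_cases hy : y = ⊤
    · rw [if_pos hy]
      split_ifs
      · exact le_rfl
      · exact (h2 _).2
    · have hx : x ≠ ⊤ := fun h => hy (top_le_iff.1 (h ▸ hxy))
      rw [if_neg hy, if_neg hx]
      by_cases hx' : x = ⊥
      · rw [hx', EReal.toReal_bot, h4]
        exact (h2 _).1
      · exact h1 (EReal.toReal_le_toReal hxy hx' hy)
  mem x := by
    show (if x = ⊤ then (1 : ℝ) else f x.toReal) ∈ Icc (0 : ℝ) 1
    split_ifs
    · exact ⟨zero_le_one, le_rfl⟩
    · exact h2 _
  left x := by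
    have h5 : ContinuousWithinAt (fun y : EReal => f y.toReal) (Ioo ⊥ (x : EReal)) x := by
      have h6 : ContinuousAt EReal.toReal (x : EReal) :=
        (EReal.continuousOn_toReal).continuousAt (by
          refine IsOpen.mem_nhds (Set.Finite.isClosed (by simp)).isOpen_compl ?_
          simp)
      have h7 : ContinuousWithinAt f (Iio x) (EReal.toReal (x : EReal)) := by
        rw [EReal.toReal_coe]
        exact h3 x
      refine h7.comp h6.continuousWithinAt ?_
      intro y hy
      have hyt : y ≠ ⊤ := (lt_of_lt_of_le hy.2 le_top).ne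
      have := EReal.coe_toReal hyt hy.1.ne'
      show y.toReal < x
      rw [← EReal.coe_lt_coe_iff, this]
      exact hy.2
    have h8 : ContinuousWithinAt (fun y : EReal => f y.toReal) (Iio (x : EReal)) x := by
      refine h5.mono_of_mem_nhdsWithin ?_
      have : Ioi (⊥ : EReal) ∈ 𝓝[Iio (x : EReal)] (x : EReal) :=
        mem_nhdsWithin_of_mem_nhds (Ioi_mem_nhds (EReal.bot_lt_coe x))
      filter_upwards [this, self_mem_nhdsWithin] with y hy hy'
      exact ⟨hy, hy'⟩
    refine h8.congr (fun y hy => ?_) ?_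
    · have hyt : y ≠ ⊤ := (lt_of_lt_of_le hy le_top).ne
      exact if_neg hyt
    · exact if_neg (EReal.coe_ne_top x)
  zero := by
    show (if (0 : EReal) = ⊤ then (1 : ℝ) else f (0 : EReal).toReal) = 0
    rw [if_neg EReal.zero_ne_top, EReal.toReal_zero, h4]
  top := if_pos rfl

theorem ofReal_coe (f : ℝ → ℝ) (h1 h2 h3 h4) (x : ℝ) : (ofReal f h1 h2 h3 h4).val x = f x := by
  show (if (x : EReal) = ⊤ then (1 : ℝ) else f (x : EReal).toReal) = f x
  rw [if_neg (EReal.coe_ne_top x), EReal.toReal_coe]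

theorem Dist.bot (F : Dist) : F.val ⊥ = 0 :=
  le_antisymm ((F.mono (bot_le : (⊥ : EReal) ≤ 0)).trans_eq F.zero) (F.mem _).1

theorem Dist.nonpos (F : Dist) {x : EReal} (hx : x ≤ 0) : F.val x = 0 :=
  le_antisymm ((F.mono hx).trans_eq F.zero) (F.mem _).1

/-- The order can be checked at the real points. -/
theorem le_of_real {F G : Dist} (h : ∀ x : ℝ, F.val x ≤ G.val x) : F.Le G := by
  intro x
  induction x using EReal.rec with
  | bot => rw [F.bot, G.bot]
  | coe x => exact h x
  | top => rw [F.top, G.top]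

theorem Dist.Le.antisymm {F G : Dist} (h : F.Le G) (h' : G.Le F) : F = G :=
  Dist.ext (funext fun x => le_antisymm (h x) (h' x))

/-- A function on `(0, ∞)`, extended by `0`. -/
noncomputable def ext0 (g : ℝ → ℝ) : ℝ → ℝ := fun x => if 0 < x then g x else 0

theorem ext0_mono {g : ℝ → ℝ} (hg : MonotoneOn g (Ioi 0)) (h0 : ∀ x, 0 < x → 0 ≤ g x) :
    Monotone (ext0 g) := by
  intro x y hxy
  unfold ext0
  by_cases hx : 0 < x
  · rw [if_pos hx, if_pos (hx.trans_le hxy)]
    exact hg hx (hx.trans_le hxy) hxy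
  · rw [if_neg hx]
    split_ifs with hy
    · exact h0 y hy
    · exact le_rfl

theorem ext0_mem {g : ℝ → ℝ} (h : ∀ x, 0 < x → g x ∈ Icc (0 : ℝ) 1) (x : ℝ) :
    ext0 g x ∈ Icc (0 : ℝ) 1 := by
  unfold ext0
  split_ifs with hx
  · exact h x hx
  · exact ⟨le_rfl, zero_le_one⟩

theorem ext0_left {g : ℝ → ℝ} (hg : ContinuousOn g (Ioi 0)) (x : ℝ) :
    ContinuousWithinAt (ext0 g) (Iio x) x := by
  by_cases hx : 0 < x
  · have h1 : ContinuousAt (ext0 g) x := by
      refine ContinuousAt.congr (hg.continuousAt (Ioi_mem_nhds hx)) ?_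
      filter_upwards [Ioi_mem_nhds hx] with y hy
      exact (if_pos hy).symm
    exact h1.continuousWithinAt
  · refine ContinuousWithinAt.congr continuousWithinAt_const (f := fun _ => (0 : ℝ)) (fun y hy => ?_)
      (if_neg hx)
    exact if_neg fun h => hx (h.trans hy)

theorem ext0_zero (g : ℝ → ℝ) : ext0 g 0 = 0 := if_neg (lt_irrefl _)

/-- The elements of `Δ⁺` that we need. -/
noncomputable def mk0 (g : ℝ → ℝ) (hm : MonotoneOn g (Ioi 0)) (h : ∀ x, 0 < x → g x ∈ Icc (0 : ℝ) 1)
    (hc : ContinuousOn g (Ioi 0)) : Dist :=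
  ofReal (ext0 g) (ext0_mono hm fun x hx => (h x hx).1) (ext0_mem h) (ext0_left hc) (ext0_zero g)

theorem mk0_pos {g : ℝ → ℝ} {hm h hc} {x : ℝ} (hx : 0 < x) : (mk0 g hm h hc).val x = g x := by
  unfold mk0
  rw [ofReal_coe]
  exact if_pos hx

theorem mk0_nonpos {g : ℝ → ℝ} {hm h hc} {x : ℝ} (hx : ¬ 0 < x) :
    (mk0 g hm h hc).val x = 0 := by
  unfold mk0
  rw [ofReal_coe]
  exact if_neg hx

/-- a constant on `(0, ∞)` -/
noncomputable def cst (c : ℝ) (hc : c ∈ Icc (0 : ℝ) 1) : Dist :=
  mk0 (fun _ => c) (fun _ _ _ _ _ => le_rfl) (fun _ _ => hc) continuousOn_const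

/-- `ε₀` -/
noncomputable def e0 : Dist := cst 1 ⟨zero_le_one, le_rfl⟩

/-- the least element -/
noncomputable def bt : Dist := cst 0 ⟨le_rfl, zero_le_one⟩

/-- the value `1/3` -/
noncomputable def ss : Dist := cst (1 / 3) ⟨by norm_num, by norm_num⟩

/-- the function `1 - 1 / (2 (1 + x))` -/
noncomputable def tf (x : ℝ) : ℝ := 1 - 1 / (2 * (1 + x))

theorem tf_lt {x y : ℝ} (hx : 0 < x) (hxy : x < y) : tf x < tf y := by
  unfold tf
  have h1 : 1 / (2 * (1 + y)) < 1 / (2 * (1 + x)) :=
    one_div_lt_one_div_of_lt (by linarith) (by linarith)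
  linarith

theorem tf_mem {x : ℝ} (hx : 0 < x) : 1 / 2 ≤ tf x ∧ tf x < 1 := by
  unfold tf
  have h1 : 0 < 1 / (2 * (1 + x)) := by positivity
  have h2 : 1 / (2 * (1 + x)) ≤ 1 / 2 :=
    one_div_le_one_div_of_le (by norm_num) (by linarith)
  constructor <;> linarith

theorem tf_cont : ContinuousOn tf (Ioi 0) := by
  unfold tf
  refine ContinuousOn.sub continuousOn_const (ContinuousOn.div continuousOn_const ?_ ?_)
  · exact (continuous_const.mul (continuous_const.add continuous_id)).continuousOn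
  · intro x hx
    have hx' : (0 : ℝ) < x := hx
    positivity

theorem tf_mono : MonotoneOn tf (Ioi 0) := by
  intro x hx y _ hxy
  rcases hxy.eq_or_lt with h | h
  · rw [h]
  · exact (tf_lt hx h).le

/-- the threshold -/
noncomputable def tt : Dist :=
  mk0 tf tf_mono (fun _ hx => ⟨by linarith [(tf_mem hx).1], (tf_mem hx).2.le⟩) tf_cont

/-- the threshold cut at `a` -/
noncomputable def uu (a : ℝ) (ha : 0 < a) : Dist :=
  mk0 (fun x => min (tf x) (tf a))
    (fun x hx y hy hxy => min_le_min_right _ (tf_mono hx hy hxy))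
    (fun x hx => ⟨le_min (by linarith [(tf_mem hx).1]) (by linarith [(tf_mem ha).1]),
      (min_le_left _ _).trans (tf_mem hx).2.le⟩)
    (ContinuousOn.inf tf_cont continuousOn_const)

theorem le_e0 (F : Dist) : F.Le e0 := by
  refine le_of_real fun x => ?_
  by_cases hx : 0 < x
  · rw [e0, cst, mk0_pos hx]
    exact (F.mem _).2
  · rw [F.nonpos (by exact_mod_cast not_lt.1 hx)]
    exact (e0.mem _).1

theorem bt_le (F : Dist) : bt.Le F := by
  refine le_of_real fun x => ?_
  have h : bt.val x = 0 := by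
    by_cases hx : 0 < x
    · rw [bt, cst, mk0_pos hx]
    · rw [bt, cst, mk0_nonpos hx]
  rw [h]
  exact (F.mem _).1

theorem ss_le_tt : ss.Le tt := by
  refine le_of_real fun x => ?_
  by_cases hx : 0 < x
  · rw [ss, cst, mk0_pos hx, tt, mk0_pos hx]
    linarith [(tf_mem hx).1]
  · rw [ss, cst, mk0_nonpos hx, tt, mk0_nonpos hx]

theorem one_coe : ((1 : ℝ) : EReal) = 1 := rfl

theorem not_tt_le_cst {c : ℝ} {hc} (h : c < 1 / 2) : ¬ tt.Le (cst c hc) := by
  intro hle
  have h1 := hle ((1 : ℝ) : EReal)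
  rw [tt, mk0_pos one_pos, cst, mk0_pos one_pos] at h1
  linarith [(tf_mem one_pos).1]

theorem ss_ne : ss ≠ e0 := by
  intro h
  have h1 : ss.val ((1 : ℝ) : EReal) = e0.val ((1 : ℝ) : EReal) := by rw [h]
  rw [ss, e0, cst, cst, mk0_pos one_pos, mk0_pos one_pos] at h1
  norm_num at h1

theorem bt_ne : bt ≠ e0 := by
  intro h
  have h1 : bt.val ((1 : ℝ) : EReal) = e0.val ((1 : ℝ) : EReal) := by rw [h]
  rw [bt, e0, cst, cst, mk0_pos one_pos, mk0_pos one_pos] at h1
  norm_num at h1

theorem eq_e0 {E : Dist} (h : IsEps0 E) : E = e0 := by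
  refine (le_e0 E).antisymm (le_of_real fun x => ?_)
  by_cases hx : 0 < x
  · rw [(h x).2 (by exact_mod_cast hx)]
    exact (e0.mem _).2
  · rw [e0, cst, mk0_nonpos hx]
    exact (E.mem _).1

open Classical in
/-- the operation -/
noncomputable def tau (F G : Dist) : Dist :=
  if F = e0 then G else if G = e0 then F else if tt.Le F ∧ tt.Le G then ss else bt

theorem tau_e0_left (G : Dist) : tau e0 G = G := if_pos rfl

theorem tau_e0_right (F : Dist) : tau F e0 = F := by
  unfold tau
  by_cases h : F = e0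
  · rw [if_pos h, h]
  · rw [if_neg h, if_pos rfl]

theorem tau_pos {F G : Dist} (hF : F ≠ e0) (hG : G ≠ e0) (h : tt.Le F ∧ tt.Le G) :
    tau F G = ss := by
  unfold tau
  rw [if_neg hF, if_neg hG, if_pos h]

theorem tau_neg {F G : Dist} (hF : F ≠ e0) (hG : G ≠ e0) (h : ¬ (tt.Le F ∧ tt.Le G)) :
    tau F G = bt := by
  unfold tau
  rw [if_neg hF, if_neg hG, if_neg h]

theorem tau_comm (F G : Dist) : tau F G = tau G F := by
  by_cases hF : F = e0
  · rw [hF, tau_e0_left, tau_e0_right]
  by_cases hG : G = e0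
  · rw [hG, tau_e0_left, tau_e0_right]
  by_cases h : tt.Le F ∧ tt.Le G
  · rw [tau_pos hF hG h, tau_pos hG hF h.symm]
  · rw [tau_neg hF hG h, tau_neg hG hF fun h' => h h'.symm]

theorem tau_small {F G : Dist} (hF : F ≠ e0) (hG : G ≠ e0) :
    tau F G ≠ e0 ∧ ¬ tt.Le (tau F G) := by
  by_cases h : tt.Le F ∧ tt.Le G
  · rw [tau_pos hF hG h]
    exact ⟨ss_ne, not_tt_le_cst (by norm_num)⟩
  · rw [tau_neg hF hG h]
    exact ⟨bt_ne, not_tt_le_cst (by norm_num)⟩

theorem tau_assoc (F G H : Dist) : tau (tau F G) H = tau F (tau G H) := by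
  by_cases hF : F = e0
  · rw [hF, tau_e0_left, tau_e0_left]
  by_cases hG : G = e0
  · rw [hG, tau_e0_left, tau_e0_right]
  by_cases hH : H = e0
  · rw [hH, tau_e0_right, tau_e0_right]
  rw [tau_neg (tau_small hF hG).1 hH fun h => (tau_small hF hG).2 h.1,
    tau_neg hF (tau_small hG hH).1 fun h => (tau_small hG hH).2 h.2]

theorem Dist.Le.trans {F G H : Dist} (h : F.Le G) (h' : G.Le H) : F.Le H :=
  fun x => (h x).trans (h' x)

theorem tau_le_right {F G : Dist} (hF : F ≠ e0) : (tau F G).Le G := by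
  by_cases hG : G = e0
  · rw [hG]
    exact le_e0 _
  by_cases h : tt.Le F ∧ tt.Le G
  · rw [tau_pos hF hG h]
    exact ss_le_tt.trans h.2
  · rw [tau_neg hF hG h]
    exact bt_le _

theorem tau_mono_left {F F' G : Dist} (h : F.Le F') : (tau F G).Le (tau F' G) := by
  by_cases hF : F = e0
  · have hF' : F' = e0 := (le_e0 F').antisymm (hF ▸ h)
    rw [hF, hF']
    exact fun _ => le_rfl
  by_cases hF' : F' = e0
  · rw [hF', tau_e0_left]
    exact tau_le_right hF
  by_cases hG : G = e0
  · rw [hG, tau_e0_right, tau_e0_right]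
    exact h
  by_cases ht : tt.Le F ∧ tt.Le G
  · rw [tau_pos hF hG ht, tau_pos hF' hG ⟨ht.1.trans h, ht.2⟩]
    exact fun _ => le_rfl
  · rw [tau_neg hF hG ht]
    exact bt_le _

/-- the triangle function -/
noncomputable def theTau : TriangleFunction where
  op := tau
  comm := tau_comm
  assoc := tau_assoc
  mono F F' G G' hF hG := by
    refine (tau_mono_left hF).trans ?_
    rw [tau_comm F' G, tau_comm F' G']
    exact tau_mono_left hG
  id E hE F := by rw [eq_e0 hE, tau_e0_right]

/-- There is a triangle function `τ` which is not causal; moreover for every real `a > 0` there are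
distance distribution functions `F` and `G` which agree on `[-∞, a]`, with
`τ(G, G)(a) < τ(F, F)(a)`, so that the implication in the definition of causality fails for every
`a > 0`. -/
theorem result : ∃ τ : TriangleFunction, ¬ Causal τ ∧ ∀ a : ℝ, 0 < a → ¬ CausalAt τ a ∧
    ∃ F G : Dist, (∀ x : EReal, x ≤ a → F.val x = G.val x) ∧
      (τ.op G G).val a < (τ.op F F).val a := by
  have key : ∀ a : ℝ, 0 < a → ∃ F G : Dist, (∀ x : EReal, x ≤ a → F.val x = G.val x) ∧
      (theTau.op G G).val a < (theTau.op F F).val a := by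
    intro a ha
    have hne : ∀ F : Dist, F.val a < 1 → F ≠ e0 := by
      intro F hF h
      rw [h, e0, cst, mk0_pos ha] at hF
      exact lt_irrefl _ hF
    have htt : tt.val a = tf a := by rw [tt, mk0_pos ha]
    have huu : ∀ x : ℝ, 0 < x → (uu a ha).val x = min (tf x) (tf a) := fun x hx => by
      rw [uu, mk0_pos hx]
    refine ⟨tt, uu a ha, fun x hx => ?_, ?_⟩
    · induction x using EReal.rec with
      | bot => rw [Dist.bot, Dist.bot]
      | coe x =>
        by_cases hx0 : 0 < x
        · rw [huu x hx0, tt, mk0_pos hx0, min_eq_left]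
          exact tf_mono hx0 ha (by exact_mod_cast hx)
        · rw [tt, uu, mk0_nonpos hx0, mk0_nonpos hx0]
      | top => exact absurd (top_le_iff.1 hx) (EReal.coe_ne_top a)
    · have h1 : tt ≠ e0 := hne tt (by rw [htt]; exact (tf_mem ha).2)
      have h2 : uu a ha ≠ e0 := hne _ (by
        rw [huu a ha, min_self]
        exact (tf_mem ha).2)
      have h3 : ¬ tt.Le (uu a ha) := by
        intro h
        have h4 := h ((a + 1 : ℝ) : EReal)
        have h5 : 0 < a + 1 := by linarith
        rw [huu _ h5, tt, mk0_pos h5] at h4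
        have h6 := tf_lt ha (show a < a + 1 by linarith)
        exact absurd (h4.trans (min_le_right _ _)) (not_le.2 h6)
      have e1 : theTau.op tt tt = ss := tau_pos h1 h1 ⟨fun _ => le_rfl, fun _ => le_rfl⟩
      have e2 : theTau.op (uu a ha) (uu a ha) = bt := tau_neg h2 h2 fun h => h3 h.1
      rw [e1, e2, ss, bt, cst, cst, mk0_pos ha, mk0_pos ha]
      norm_num
  have key2 : ∀ a : ℝ, 0 < a → ¬ CausalAt theTau a := by
    intro a ha hc
    obtain ⟨F, G, h1, h2⟩ := key a ha
    exact absurd (hc F G F G (fun x hx => (h1 x hx).le) (fun x hx => (h1 x hx).le) a le_rfl)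
      (not_le.2 h2)
  exact ⟨theTau, fun h => key2 1 one_pos (h 1 one_pos), fun a ha => ⟨key2 a ha, key a ha⟩⟩

end Pool.Agent.Results.MP_275f89_an.NonCausal
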